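import Mathlib
import Pool.Agent.Q187.Exp.GaussFine

set_option autoImplicit false

/-!
# The dimensions of the asymptotic sets of the Gauss map fill the interval `[0, 1/2]`
-/

open Filter Topology Set

namespace Pool.Agent.Results.MP_bb898f_an.Image

/-- The Gauss map, `G 0 = 0` and `G x = 1 / x - ⌊1 / x⌋` for `x` in `(0, 1)`
(in Lean `1 / 0 = 0`, so the formula gives `G 0 = 0`). -/
noncomputable def G (x : ℝ) : ℝ := 1 / x - (⌊1 / x⌋ : ℝ)

/-- The asymptotic set of `x` under the Gauss map, inside `[0, 1)`. -/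
def AS (x : ℝ) : Set ℝ :=
  {y ∈ Ico (0 : ℝ) 1 | Tendsto (fun n : ℕ => |G^[n] x - G^[n] y|) atTop (𝓝 0)}

/-- The image of `x ↦ dimH (AS x)` on `[0, 1)` is the interval `[0, 1/2]`. -/
theorem result : (fun x => dimH (AS x)) '' Ico (0 : ℝ) 1 = Icc (0 : ENNReal) (1 / 2) :=
  Pool.Agent.Q187.Exp.image_eq Pool.Agent.Q187.Exp.Gauss.sys Pool.Agent.Q187.Exp.Gauss.fine
    (X := Ico (0 : ℝ) 1) Ioo_subset_Ico_self subset_rfl

end Pool.Agent.Results.MP_bb898f_an.Image
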